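import Mathlib

set_option autoImplicit false
open Finset

namespace Pool.Agent.H.MP_0479e2_co

variable {α β : Type} [DecidableEq α] [DecidableEq β]

def NoTr (X : Finset α) (Y : Finset β) (N : β → Finset α) (k : ℕ) : Prop :=
  ∀ S ⊆ X, S.card ≤ k → ∃ y ∈ Y, Disjoint S (N y)

omit [DecidableEq β] in
theorem lt_card (X : Finset α) (Y : Finset β) (N : β → Finset α) (k : ℕ)
    (hN : ∀ y ∈ Y, N y ⊆ X ∧ (N y).Nonempty) (hT : NoTr X Y N k) : k < X.card := by
  by_contra h
  obtain ⟨y, hy, hd⟩ := hT X subset_rfl (by omega)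
  obtain ⟨z, hz⟩ := (hN y hy).2
  exact Finset.disjoint_left.1 hd ((hN y hy).1 hz) hz

omit [DecidableEq β] in
theorem count (X : Finset α) (Y : Finset β) (N : β → Finset α) (k c : ℕ) (hc : c + 1 ≤ k)
    (hN : ∀ y ∈ Y, N y ⊆ X ∧ (N y).Nonempty) (hT : NoTr X Y N k) (x : α) (hx : x ∈ X) :
    k ≤ (Y.filter fun y => x ∉ N y ∧ c + 1 ≤ X.card - (N y).card).card := by
  by_contra h
  set Z := Y.filter fun y => x ∉ N y ∧ c + 1 ≤ X.card - (N y).card with hZ
  have hf : ∀ y, ∃ z, y ∈ Y → z ∈ N y := fun y => by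
    by_cases hy : y ∈ Y
    · obtain ⟨z, hz⟩ := (hN y hy).2
      exact ⟨z, fun _ => hz⟩
    · exact ⟨x, fun h => absurd h hy⟩
  choose f hf using hf
  have h1 : insert x (Z.image f) ⊆ X := by
    intro z hz
    rcases Finset.mem_insert.1 hz with rfl | hz
    · exact hx
    · obtain ⟨y, hy, rfl⟩ := Finset.mem_image.1 hz
      have hy' := (Finset.mem_filter.1 hy).1
      exact (hN y hy').1 (hf y hy')
  have h2 : (insert x (Z.image f)).card ≤ k := by
    have := Finset.card_insert_le x (Z.image f)
    have := Finset.card_image_le (s := Z) (f := f)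
    omega
  obtain ⟨K, hK1, hK2, hK3⟩ := Finset.exists_subsuperset_card_eq h1 h2
    (lt_card X Y N k hN hT).le
  obtain ⟨y, hy, hd⟩ := hT K hK2 hK3.le
  have h3 : K.card + (N y).card ≤ X.card := by
    rw [← Finset.card_union_of_disjoint hd]
    exact Finset.card_le_card (Finset.union_subset hK2 (hN y hy).1)
  have h4 : y ∈ Z := Finset.mem_filter.2 ⟨hy,
    Finset.disjoint_left.1 hd (hK1 (Finset.mem_insert_self _ _)), by omega⟩
  exact Finset.disjoint_left.1 hd
    (hK1 (Finset.mem_insert_of_mem (Finset.mem_image_of_mem f h4))) (hf y hy)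

theorem cover (a : ℕ) : ∀ (X : Finset α) (Y : Finset β) (N : β → Finset α) (k c : ℕ),
    X.card = a → (c + 1 ≤ k ∨ c = 0) → (∀ y ∈ Y, N y ⊆ X ∧ (N y).Nonempty) → NoTr X Y N k →
    k * a ≤ ∑ y ∈ Y, (a - (N y).card - c) + c * (k + 1) := by
  induction a with
  | zero => intros; simp
  | succ a ih =>
    intro X Y N k c hX hc hN hT
    rcases Nat.eq_zero_or_pos k with rfl | hk
    · simp
    have hc' : c + 1 ≤ k := by omega
    have hka := lt_card X Y N k hN hT
    by_cases hs : ∃ y ∈ Y, ∃ x, N y = {x}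
    · obtain ⟨y0, hy0, x, hx⟩ := hs
      have hxX : x ∈ X := (hN y0 hy0).1 (by rw [hx]; simp)
      obtain ⟨k, rfl⟩ : ∃ k', k = k' + 1 := ⟨k - 1, by omega⟩
      set Y' := Y.filter fun y => x ∉ N y with hY'
      have hN' : ∀ y ∈ Y', N y ⊆ X.erase x ∧ (N y).Nonempty := by
        intro y hy
        obtain ⟨h1, h2⟩ := Finset.mem_filter.1 hy
        exact ⟨fun z hz => Finset.mem_erase.2 ⟨fun e => h2 (e ▸ hz), (hN y h1).1 hz⟩, (hN y h1).2⟩
      have hX' : (X.erase x).card = a := by rw [Finset.card_erase_of_mem hxX, hX]; rfl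
      have hT' : NoTr (X.erase x) Y' N k := by
        intro S hS hS'
        obtain ⟨y, hy, hd⟩ := hT (insert x S)
          (Finset.insert_subset hxX (hS.trans (Finset.erase_subset _ _)))
          ((Finset.card_insert_le _ _).trans (by omega))
        rw [Finset.disjoint_insert_left] at hd
        exact ⟨y, Finset.mem_filter.2 ⟨hy, hd.1⟩, hd.2⟩
      have h1 := ih (X.erase x) Y' N k (c - 1) hX' (by omega) hN' hT'
      have hy0' : y0 ∉ Y' := fun h => (Finset.mem_filter.1 h).2 (by rw [hx]; simp)
      have h2 : ∑ y ∈ insert y0 Y', (a + 1 - (N y).card - c) ≤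
          ∑ y ∈ Y, (a + 1 - (N y).card - c) :=
        Finset.sum_le_sum_of_subset (Finset.insert_subset hy0 (Finset.filter_subset _ _))
      rw [Finset.sum_insert hy0', hx, Finset.card_singleton] at h2
      rcases c with _ | c
      · have h3 : ∑ y ∈ Y', (a + 1 - (N y).card - 0) =
            ∑ y ∈ Y', (a - (N y).card - (0 - 1)) + Y'.card := by
          rw [Finset.card_eq_sum_ones, ← Finset.sum_add_distrib]
          refine Finset.sum_congr rfl fun y hy => ?_
          have := Finset.card_le_card (hN' y hy).1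
          omega
        have h4 : k + 1 ≤ Y'.card := (count X Y N (k + 1) 0 hc' hN hT x hxX).trans
          (Finset.card_le_card fun y hy => by
            obtain ⟨h5, h6, -⟩ := Finset.mem_filter.1 hy
            exact Finset.mem_filter.2 ⟨h5, h6⟩)
        have e : (k + 1) * (a + 1) = k * a + a + k + 1 := by ring
        simp only [Nat.zero_sub, zero_mul, add_zero, Nat.sub_zero] at *
        omega
      · have h3 : ∑ y ∈ Y', (a + 1 - (N y).card - (c + 1)) =
            ∑ y ∈ Y', (a - (N y).card - (c + 1 - 1)) :=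
          Finset.sum_congr rfl fun y _ => by omega
        have e : (k + 1) * (a + 1) = k * a + a + k + 1 := by ring
        have e2 : (c + 1) * (k + 1 + 1) = c * (k + 1) + c + k + 2 := by ring
        simp only [Nat.add_sub_cancel] at h1 h3
        omega
    · obtain ⟨x, hxX⟩ : X.Nonempty := Finset.card_pos.1 (by omega)
      have hN' : ∀ y ∈ Y, (N y).erase x ⊆ X.erase x ∧ ((N y).erase x).Nonempty := by
        intro y hy
        refine ⟨Finset.erase_subset_erase _ (hN y hy).1, ?_⟩
        by_contra hne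
        rw [Finset.not_nonempty_iff_eq_empty, Finset.erase_eq_empty_iff] at hne
        rcases hne with h | h
        · exact (hN y hy).2.ne_empty h
        · exact hs ⟨y, hy, x, h⟩
      have hX' : (X.erase x).card = a := by rw [Finset.card_erase_of_mem hxX, hX]; rfl
      have hT' : NoTr (X.erase x) Y (fun y => (N y).erase x) k := by
        intro S hS hS'
        obtain ⟨y, hy, hd⟩ := hT S (hS.trans (Finset.erase_subset _ _)) hS'
        exact ⟨y, hy, hd.mono_right (Finset.erase_subset _ _)⟩
      have h1 := ih (X.erase x) Y (fun y => (N y).erase x) k c hX' hc hN' hT'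
      have h2 := count X Y N k c hc' hN hT x hxX
      rw [Finset.card_filter, hX] at h2
      have h3 : ∑ y ∈ Y, (a - ((N y).erase x).card - c) +
          ∑ y ∈ Y, (if x ∉ N y ∧ c + 1 ≤ a + 1 - (N y).card then 1 else 0) ≤
          ∑ y ∈ Y, (a + 1 - (N y).card - c) := by
        rw [← Finset.sum_add_distrib]
        refine Finset.sum_le_sum fun y hy => ?_
        by_cases hxy : x ∈ N y
        · have := Finset.card_pos.2 (hN y hy).2
          rw [Finset.card_erase_of_mem hxy, if_neg (fun h => h.1 hxy)]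
          omega
        · rw [Finset.erase_eq_of_notMem hxy]
          split_ifs with h
          · omega
          · omega
      have e : k * (a + 1) = k * a + k := by ring
      omega

variable {V : Type} [Fintype V] [DecidableEq V]

def Dom (G : SimpleGraph V) (X Y : Finset V) (j : ℕ) : Prop :=
  ∃ S ⊆ X, S.card ≤ j ∧ ∀ y ∈ Y, ∃ u ∈ S, G.Adj y u

theorem side (G : SimpleGraph V) [DecidableRel G.Adj] (X Y : Finset V)
    (hb : G.IsBipartiteWith X Y) (hiso : ∀ v, ∃ w, G.Adj v w) (k c : ℕ) (hc : c + 1 ≤ k)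
    (hk : ¬ Dom G X Y k) (hc' : ¬ Dom G Y X c) :
    (G.edgeFinset.card : ℤ) ≤ ((X.card : ℤ) - c) * ((Y.card : ℤ) - k) + c := by
  have hN : ∀ y ∈ Y, G.neighborFinset y ⊆ X ∧ (G.neighborFinset y).Nonempty := by
    intro y hy
    obtain ⟨w, hw⟩ := hiso y
    exact ⟨SimpleGraph.isBipartiteWith_neighborFinset_subset' hb hy, w, by simpa using hw⟩
  have hT : NoTr X Y (fun y => G.neighborFinset y) k := by
    intro S hS hS'
    by_contra hne
    push Not at hne
    refine hk ⟨S, hS, hS', fun y hy => ?_⟩
    obtain ⟨u, hu1, hu2⟩ := Finset.not_disjoint_iff.1 (hne y hy)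
    exact ⟨u, hu1, by simpa using hu2⟩
  have h1 := cover X.card X Y (fun y => G.neighborFinset y) k c rfl (Or.inl hc) hN hT
  have h2 : ∀ y ∈ Y, G.degree y + c ≤ X.card := by
    intro y hy
    by_contra hlt
    choose f hf using hiso
    refine hc' ⟨insert y ((X \ G.neighborFinset y).image f), ?_, ?_, ?_⟩
    · intro z hz
      rcases Finset.mem_insert.1 hz with rfl | hz
      · exact hy
      · obtain ⟨x, hx, rfl⟩ := Finset.mem_image.1 hz
        exact hb.mem_of_mem_adj (Finset.mem_sdiff.1 hx).1 (hf x)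
    · have e1 := Finset.card_insert_le y ((X \ G.neighborFinset y).image f)
      have e2 := Finset.card_image_le (s := X \ G.neighborFinset y) (f := f)
      have e3 := Finset.card_sdiff_add_card_eq_card (hN y hy).1
      rw [SimpleGraph.card_neighborFinset_eq_degree] at e3
      omega
    · intro x hx
      by_cases hxy : G.Adj y x
      · exact ⟨y, Finset.mem_insert_self _ _, hxy.symm⟩
      · exact ⟨f x, Finset.mem_insert_of_mem (Finset.mem_image_of_mem f
          (Finset.mem_sdiff.2 ⟨hx, by simpa using hxy⟩)), hf x⟩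
  have h3 := SimpleGraph.isBipartiteWith_sum_degrees_eq_card_edges' hb
  have h4 : ∑ y ∈ Y, (X.card - (G.neighborFinset y).card - c) + ∑ y ∈ Y, G.degree y +
      Y.card * c = Y.card * X.card := by
    rw [← smul_eq_mul, ← smul_eq_mul, ← Finset.sum_const, ← Finset.sum_const,
      ← Finset.sum_add_distrib, ← Finset.sum_add_distrib]
    refine Finset.sum_congr rfl fun y hy => ?_
    have := h2 y hy
    rw [SimpleGraph.card_neighborFinset_eq_degree]
    omega
  rw [h3] at h4
  zify at h1 h4
  nlinarith

end Pool.Agent.H.MP_0479e2_co
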